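import Mathlib

/-!
# Cohomological field theories in the cohomology of the moduli spaces of stable curves

Markings are indexed by a finite set `S` instead of `{1, …, n}`; `Option S` is `S` with one more
marking `none`. `ModuliGroups` collects the groups `H^k(Mbar_{g,S}; ℂ)` together with the standard
operations on them, and `StandardProperties` those of their standard properties which are used in
the proofs.
-/

open scoped TensorProduct

namespace Pool.Agent.Lib.MP_bd1395_ag

/-- The stability condition `2g - 2 + |S| > 0`. -/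
def Stable (g : ℕ) (S : Type) : Prop := 2 < 2 * g + Nat.card S

/-- The markings of a curve with one extra marking `none`: value `a` at `none`, `v` elsewhere. -/
def ext {S V : Type} (a : V) (v : S → V) : Option S → V := fun o => o.elim a v

/-- The cohomology groups `H g S k = H^k(Mbar_{g,S}; ℂ)` with the standard operations. -/
structure ModuliGroups where
  /-- the group `H^k(Mbar_{g,S}; ℂ)` -/
  H : ℕ → Type → ℕ → Type
  [instAdd : ∀ g S k, AddCommGroup (H g S k)]
  [instModule : ∀ g S k, Module ℂ (H g S k)]
  /-- the isomorphism induced by a relabelling of the markings -/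
  relabel : ∀ {S T : Type}, S ≃ T → ∀ g k : ℕ, H g S k →ₗ[ℂ] H g T k
  /-- the unit class `1 ∈ H^0` -/
  one : ∀ (g : ℕ) (S : Type), H g S 0
  /-- multiplication with the cotangent line class `ψ_s ∈ H^2` of the marking `s` -/
  psi : ∀ {S : Type}, S → ∀ g k : ℕ, H g S k →ₗ[ℂ] H g S (k + 2)
  /-- pullback under the map which forgets the marking `none` -/
  forget : ∀ (S : Type) (g k : ℕ), H g S k →ₗ[ℂ] H g (Option S) k
  /-- pullback under the non-separating gluing map `Mbar_{g, S + 2} → Mbar_{g+1, S}` which glues the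
  markings `none` and `some none` -/
  loop : ∀ (S : Type) (g k : ℕ), H (g + 1) S k →ₗ[ℂ] H g (Option (Option S)) k
  /-- the Künneth component in `H^i ⊗ H^j` of the pullback under the separating gluing map
  `Mbar_{g₁, S + 1} × Mbar_{g₂, T + 1} → Mbar_{g₁ + g₂, S ⊔ T}` which glues the two markings
  `none` -/
  glue : ∀ (S T : Type) {g₁ g₂ g : ℕ}, g₁ + g₂ = g → ∀ {i j k : ℕ}, i + j = k →
    (H g (S ⊕ T) k →ₗ[ℂ] H g₁ (Option S) i ⊗[ℂ] H g₂ (Option T) j)

attribute [instance] ModuliGroups.instAdd ModuliGroups.instModule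

/-- Exchanging the two factors of the source of the separating gluing map: by the sign rule for
cross products of cohomology classes, `x × y` corresponds to `(-1)^{ij} y × x`. -/
def GlueSwap (M : ModuliGroups) : Prop :=
  ∀ (S T : Type) [Finite S] [Finite T] {g₁ g₂ g : ℕ} (hg : g₁ + g₂ = g) (hg' : g₂ + g₁ = g)
    {i j k : ℕ} (hk : i + j = k) (hk' : j + i = k) (x : M.H g (S ⊕ T) k),
    Stable g₁ (Option S) → Stable g₂ (Option T) →
    TensorProduct.comm ℂ _ _ (M.glue S T hg hk x) =
      (-1 : ℂ) ^ (i * j) • M.glue T S hg' hk' (M.relabel (Equiv.sumComm S T) g k x)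

/-- The unit class and the cotangent line classes are compatible with the non-separating gluing
maps. -/
def LoopCompatible (M : ModuliGroups) : Prop :=
  (∀ (S : Type) [Finite S] (g : ℕ), Stable g (Option (Option S)) →
    M.loop S g 0 (M.one (g + 1) S) = M.one g (Option (Option S))) ∧
  ∀ (S : Type) [Finite S] (s : S) (g k : ℕ) (x : M.H (g + 1) S k),
    Stable g (Option (Option S)) →
    M.loop S g (k + 2) (M.psi s (g + 1) k x) = M.psi (some (some s)) g k (M.loop S g k x)

/-- The degree of `ψ_s` on `Mbar_{0,4}` is `1`. -/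
def DegreePsi (M : ModuliGroups) : Prop :=
  ∀ (S : Type), Nat.card S = 4 → ∃ deg : M.H 0 S 2 →ₗ[ℂ] ℂ, ∀ s : S,
    deg (M.psi s 0 0 (M.one 0 S)) = 1

/-- Self-intersection formula. If `S` and `T` are nonempty, the separating gluing map is a closed
embedding as a divisor with normal bundle of first Chern class `-ψ ⊗ 1 - 1 ⊗ ψ`, so the
push-forward `z` of `x × y` pulls back to `-ψx × y - x × ψy`. -/
def SelfIntersection (M : ModuliGroups) : Prop :=
  ∀ (S T : Type) [Finite S] [Finite T] [Nonempty S] [Nonempty T]
    {g₁ g₂ g : ℕ} (hg : g₁ + g₂ = g) {i j : ℕ} (x : M.H g₁ (Option S) i)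
    (y : M.H g₂ (Option T) j), Stable g₁ (Option S) → Stable g₂ (Option T) →
    ∃ z : M.H g (S ⊕ T) (i + j + 2),
      M.glue S T hg (show (i + 2) + j = i + j + 2 by omega) z = -(M.psi none g₁ i x ⊗ₜ[ℂ] y) ∧
      M.glue S T hg (show i + (j + 2) = i + j + 2 by omega) z = -(x ⊗ₜ[ℂ] M.psi none g₂ j y)

/-- The dilaton equation: fibre integration along the map forgetting `none` sends
`ψ_none · π^* x` to `(2g - 2 + |S|) x`. -/
def Dilaton (M : ModuliGroups) : Prop :=
  ∀ (S : Type) [Finite S] (g k : ℕ), Stable g S →
    ∃ push : M.H g (Option S) (k + 2) →ₗ[ℂ] M.H g S k, ∀ x : M.H g S k,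
      push (M.psi none g k (M.forget S g k x)) = ((2 * g + Nat.card S : ℕ) - 2 : ℂ) • x

/-- The standard properties of the cohomology of the moduli spaces of stable curves which are
used. -/
structure StandardProperties (M : ModuliGroups) : Prop where
  glue_swap : GlueSwap M
  loop_compatible : LoopCompatible M
  degree_psi : DegreePsi M
  self_intersection : SelfIntersection M
  dilaton : Dilaton M

/-- `b` and `b'` are bases dual to each other with respect to the form `η`, so that
`η⁻¹ = ∑ i, b i ⊗ b' i`. -/
def DualBases {V : Type} [AddCommGroup V] [Module ℂ V] {ι : Type}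
    (η : V →ₗ[ℂ] V →ₗ[ℂ] ℂ) (b b' : Module.Basis ι ℂ V) : Prop :=
  (∀ i, η (b i) (b' i) = 1) ∧ ∀ i j, i ≠ j → η (b i) (b' j) = 0

/-- The data of a cohomological field theory `(V, η, 1, Ω)`. The component of `Ω_{g,S}(v)` in `H^k`
is `Ω g S k v`. -/
structure CohFTData (M : ModuliGroups) where
  /-- the finite-dimensional vector space -/
  V : Type
  [instAdd : AddCommGroup V]
  [instModule : Module ℂ V]
  [instFinite : FiniteDimensional ℂ V]
  /-- the form -/
  η : V →ₗ[ℂ] V →ₗ[ℂ] ℂ
  /-- the unit vector -/
  unit : V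
  /-- the classes -/
  Ω : ∀ (g : ℕ) (S : Type) (k : ℕ), MultilinearMap ℂ (fun _ : S => V) (M.H g S k)

attribute [instance] CohFTData.instAdd CohFTData.instModule CohFTData.instFinite

variable {M : ModuliGroups}

/-- Equivariance under relabellings of the markings. -/
def CohFTData.Equivariance (F : CohFTData M) : Prop :=
  ∀ {S T : Type} [Finite S] [Finite T] (e : S ≃ T) (g k : ℕ) (v : T → F.V),
    Stable g S → M.relabel e g k (F.Ω g S k (fun s => v (e s))) = F.Ω g T k v

/-- The gluing axiom for the non-separating gluing maps. -/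
def CohFTData.GluingLoop (F : CohFTData M) : Prop :=
  ∀ (S : Type) [Finite S] (g k : ℕ) (v : S → F.V), Stable g (Option (Option S)) →
    ∀ {ι : Type} [Fintype ι] (b b' : Module.Basis ι ℂ F.V), DualBases F.η b b' →
      M.loop S g k (F.Ω (g + 1) S k v) =
        ∑ i, F.Ω g (Option (Option S)) k (ext (b i) (ext (b' i) v))

/-- The gluing axiom for the separating gluing maps. -/
def CohFTData.GluingSeparating (F : CohFTData M) : Prop :=
  ∀ (S T : Type) [Finite S] [Finite T] {g₁ g₂ g : ℕ} (hg : g₁ + g₂ = g) {i j k : ℕ}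
    (hk : i + j = k) (v : S → F.V) (w : T → F.V), Stable g₁ (Option S) → Stable g₂ (Option T) →
    ∀ {ι : Type} [Fintype ι] (b b' : Module.Basis ι ℂ F.V), DualBases F.η b b' →
      M.glue S T hg hk (F.Ω g (S ⊕ T) k (Sum.elim v w)) =
        ∑ a, F.Ω g₁ (Option S) i (ext (b a) v) ⊗ₜ[ℂ] F.Ω g₂ (Option T) j (ext (b' a) w)

/-- The unit axiom. -/
def CohFTData.UnitAxiom (F : CohFTData M) : Prop :=
  (∀ (S : Type) [Finite S] (g k : ℕ) (v : S → F.V), Stable g S →
    F.Ω g (Option S) k (ext F.unit v) = M.forget S g k (F.Ω g S k v)) ∧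
  ∀ v w : F.V, F.Ω 0 (Fin 3) 0 ![v, w, F.unit] = F.η v w • M.one 0 (Fin 3)

/-- A cohomological field theory. The axioms are only required for stable pairs. -/
structure CohFT (M : ModuliGroups) extends CohFTData M where
  symm : ∀ x y, η x y = η y x
  nondegenerate : ∀ x, (∀ y, η x y = 0) → x = 0
  equivariance : toCohFTData.Equivariance
  gluing_loop : toCohFTData.GluingLoop
  gluing_sep : toCohFTData.GluingSeparating
  unit_axiom : toCohFTData.UnitAxiom

/-- The homology class `A`, a linear form on `H^k(Mbar_{g,S}; ℂ)`, has intersection number `0` with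
all cohomological field theories. -/
def Invisible (M : ModuliGroups) {g : ℕ} {S : Type} {k : ℕ}
    (A : Module.Dual ℂ (M.H g S k)) : Prop :=
  ∀ (F : CohFT M) (v : S → F.V), A (F.Ω g S k v) = 0

/-- The product of two linear forms, a linear form on the tensor product. For homology classes it
is their cross product. -/
noncomputable def prodForm {A B : Type} [AddCommGroup A] [Module ℂ A] [AddCommGroup B] [Module ℂ B]
    (f : Module.Dual ℂ A) (g : Module.Dual ℂ B) : Module.Dual ℂ (A ⊗[ℂ] B) :=
  (LinearMap.mul' ℂ ℂ) ∘ₗ (TensorProduct.map f g)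

/-- The statement of the question for the groups `M`: homology classes `A`, `B` of the same degree
which have the same intersection numbers with all cohomological field theories are equal. -/
def Question (M : ModuliGroups) : Prop :=
  ∀ (g : ℕ) (S : Type) [Finite S] (k : ℕ), Stable g S → ∀ A B : Module.Dual ℂ (M.H g S k),
    (∀ (F : CohFT M) (v : S → F.V), A (F.Ω g S k v) = B (F.Ω g S k v)) → A = B

end Pool.Agent.Lib.MP_bd1395_ag
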