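import Mathlib
import Pool.Agent.Lib.MP_bd1395_ag.Defs

open scoped TensorProduct

namespace Pool.Agent.Lib.MP_bd1395_ag

variable {M : ModuliGroups}

lemma DualBases.swap {V : Type} [AddCommGroup V] [Module ℂ V] {ι : Type}
    {η : V →ₗ[ℂ] V →ₗ[ℂ] ℂ} (hs : ∀ x y, η x y = η y x) {b b' : Module.Basis ι ℂ V}
    (h : DualBases η b b') : DualBases η b' b :=
  ⟨fun i => by rw [hs]; exact h.1 i, fun i j hij => by rw [hs]; exact h.2 j i (Ne.symm hij)⟩

/-- Dual bases exist. -/
lemma exists_dualBases (F : CohFT M) : ∃ (ι : Type) (_ : Fintype ι) (b b' : Module.Basis ι ℂ F.V),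
    DualBases F.η b b' := by
  classical
  let b := Module.finBasis ℂ F.V
  have hnd : LinearMap.BilinForm.Nondegenerate F.η := by
    constructor
    · intro x hx
      exact F.nondegenerate x hx
    · intro x hx
      exact F.nondegenerate x fun y => by rw [F.symm]; exact hx y
  refine ⟨_, inferInstance, b, LinearMap.BilinForm.dualBasis F.η hnd b, ?_, ?_⟩
  · intro i
    rw [F.symm, LinearMap.BilinForm.apply_dualBasis_left]
    simp
  · intro i j hij
    rw [F.symm, LinearMap.BilinForm.apply_dualBasis_left]
    simp [hij]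

@[simp] lemma prodForm_tmul {A B : Type} [AddCommGroup A] [Module ℂ A] [AddCommGroup B]
    [Module ℂ B] (f : Module.Dual ℂ A) (g : Module.Dual ℂ B) (x : A) (y : B) :
    prodForm f g (x ⊗ₜ[ℂ] y) = f x * g y := by
  simp [prodForm]

lemma prodForm_comm {A B : Type} [AddCommGroup A] [Module ℂ A] [AddCommGroup B] [Module ℂ B]
    (f : Module.Dual ℂ A) (g : Module.Dual ℂ B) (x : A ⊗[ℂ] B) :
    prodForm g f (TensorProduct.comm ℂ A B x) = prodForm f g x := by
  induction x using TensorProduct.induction_on with
  | zero => simp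
  | tmul a b => simp [mul_comm]
  | add a b ha hb => rw [map_add, map_add, map_add, ha, hb]

lemma stable_sum {S T : Type} [Finite S] [Finite T] {g₁ g₂ g : ℕ} (hg : g₁ + g₂ = g)
    (h₁ : Stable g₁ (Option S)) (h₂ : Stable g₂ (Option T)) : Stable g (S ⊕ T) := by
  unfold Stable at *
  rw [Nat.card_sum]
  rw [Finite.card_option] at h₁ h₂
  omega

/-- For two odd classes the contraction over the glued marking vanishes. -/
theorem odd_odd (hM : StandardProperties M) (F : CohFT M) {S T : Type} [Finite S] [Finite T] {g₁ g₂ i j : ℕ}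
    (hi : Odd i) (hj : Odd j) (h₁ : Stable g₁ (Option S)) (h₂ : Stable g₂ (Option T))
    (B₁ : Module.Dual ℂ (M.H g₁ (Option S) i)) (B₂ : Module.Dual ℂ (M.H g₂ (Option T) j))
    {ι : Type} [Fintype ι] {b b' : Module.Basis ι ℂ F.V} (hb : DualBases F.η b b')
    (v : S → F.V) (w : T → F.V) :
    ∑ a, B₁ (F.Ω g₁ (Option S) i (ext (b a) v)) * B₂ (F.Ω g₂ (Option T) j (ext (b' a) w)) = 0 := by
  have e1 := F.gluing_sep S T (rfl : g₁ + g₂ = g₁ + g₂) (rfl : i + j = i + j) v w h₁ h₂ b b' hb
  have e2 := F.gluing_sep T S (add_comm g₂ g₁) (add_comm j i) w v h₂ h₁ b' b (hb.swap F.symm)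
  have e3 := hM.glue_swap S T (rfl : g₁ + g₂ = g₁ + g₂) (add_comm g₂ g₁) (rfl : i + j = i + j)
    (add_comm j i) (F.Ω (g₁ + g₂) (S ⊕ T) (i + j) (Sum.elim v w)) h₁ h₂
  have hst : Stable (g₁ + g₂) (S ⊕ T) := stable_sum rfl h₁ h₂
  have e4 : M.relabel (Equiv.sumComm S T) (g₁ + g₂) (i + j)
      (F.Ω (g₁ + g₂) (S ⊕ T) (i + j) (Sum.elim v w)) =
      F.Ω (g₁ + g₂) (T ⊕ S) (i + j) (Sum.elim w v) := by
    rw [← F.equivariance (Equiv.sumComm S T) (g₁ + g₂) (i + j) (Sum.elim w v) hst]
    congr 2
    funext s
    cases s <;> rfl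
  rw [e4] at e3
  have hsign : (-1 : ℂ) ^ (i * j) = -1 := (hi.mul hj).neg_one_pow
  have e5 := congrArg (prodForm B₂ B₁) e3
  rw [prodForm_comm, hsign, e1, e2] at e5
  simp only [map_sum, prodForm_tmul, map_smul, smul_eq_mul, neg_mul, one_mul] at e5
  have e6 : ∑ x, B₂ (F.Ω g₂ (Option T) j (ext (b' x) w)) *
      B₁ (F.Ω g₁ (Option S) i (ext (b x) v)) =
      ∑ a, B₁ (F.Ω g₁ (Option S) i (ext (b a) v)) *
        B₂ (F.Ω g₂ (Option T) j (ext (b' a) w)) :=
    Finset.sum_congr rfl fun a _ => mul_comm _ _
  rw [e6] at e5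
  set X := ∑ a, B₁ (F.Ω g₁ (Option S) i (ext (b a) v)) *
        B₂ (F.Ω g₂ (Option T) j (ext (b' a) w))
  have : (2 : ℂ) * X = 0 := by linear_combination e5
  simpa using this

/-- The relabelling exchanging the two extra markings. -/
def swapTwo (S : Type) : Option (Option S) ≃ Option (Option S) where
  toFun o := match o with
    | none => some none
    | some none => none
    | some (some s) => some (some s)
  invFun o := match o with
    | none => some none
    | some none => none
    | some (some s) => some (some s)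
  left_inv o := by rcases o with _ | _ | s <;> rfl
  right_inv o := by rcases o with _ | _ | s <;> rfl

/-- An odd class, seen as an endomorphism, squares to zero, hence has trace zero. -/
theorem trace_zero (hM : StandardProperties M) (F : CohFT M) {S : Type} [Finite S] {g k : ℕ} (hk : Odd k)
    (hst : Stable g (Option (Option S))) (B : Module.Dual ℂ (M.H g (Option (Option S)) k))
    {ι : Type} [Fintype ι] {b b' : Module.Basis ι ℂ F.V} (hb : DualBases F.η b b')
    (v : S → F.V) :
    ∑ a, B (F.Ω g (Option (Option S)) k (ext (b a) (ext (b' a) v))) = 0 := by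
  classical
  -- the bilinear form `β y z`, with `z` at the marking `none` and `y` at `some none`
  set β : F.V → F.V → ℂ := fun y z => B (F.Ω g (Option (Option S)) k (ext z (ext y v))) with hβ
  have hadd₁ : ∀ y y' z, β (y + y') z = β y z + β y' z := by
    intro y y' z
    have h := (F.Ω g (Option (Option S)) k).map_update_add (ext z (ext 0 v)) (some none) y y'
    have hu : ∀ x, Function.update (ext z (ext 0 v)) (some none) x = ext z (ext x v) := by
      intro x
      funext o
      rcases o with _ | _ | s
      · rw [Function.update_of_ne (by simp)]; rfl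
      · rw [Function.update_self]; rfl
      · rw [Function.update_of_ne (by simp)]; rfl
    rw [hu, hu, hu] at h
    simp only [hβ, h, map_add]
  have hsmul₁ : ∀ (c : ℂ) y z, β (c • y) z = c * β y z := by
    intro c y z
    have h := (F.Ω g (Option (Option S)) k).map_update_smul (ext z (ext 0 v)) (some none) c y
    have hu : ∀ x, Function.update (ext z (ext 0 v)) (some none) x = ext z (ext x v) := by
      intro x
      funext o
      rcases o with _ | _ | s
      · rw [Function.update_of_ne (by simp)]; rfl
      · rw [Function.update_self]; rfl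
      · rw [Function.update_of_ne (by simp)]; rfl
    rw [hu, hu] at h
    simp only [hβ, h, map_smul, smul_eq_mul]
  -- the endomorphism
  let T : F.V →ₗ[ℂ] F.V :=
    { toFun := fun y => ∑ a, β y (b a) • b' a
      map_add' := by
        intro y y'
        rw [← Finset.sum_add_distrib]
        refine Finset.sum_congr rfl fun a _ => ?_
        rw [hadd₁, add_smul]
      map_smul' := by
        intro c y
        rw [RingHom.id_apply, Finset.smul_sum]
        refine Finset.sum_congr rfl fun a _ => ?_
        rw [hsmul₁, mul_smul] }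
  have hTT : T * T = 0 := by
    ext y
    show T (T y) = 0
    have h1 : T (T y) = ∑ a, β y (b a) • T (b' a) := by
      conv_lhs => rw [show T y = ∑ a, β y (b a) • b' a from rfl]
      rw [map_sum]
      refine Finset.sum_congr rfl fun a _ => by rw [map_smul]
    have h2 : ∀ a, T (b' a) = ∑ c, β (b' a) (b c) • b' c := fun a => rfl
    rw [h1]
    simp only [h2, Finset.smul_sum, smul_smul]
    rw [Finset.sum_comm]
    apply Finset.sum_eq_zero
    intro c _
    rw [← Finset.sum_smul]
    have h3 : ∑ a, β y (b a) * β (b' a) (b c) = 0 := by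
      have h4 := odd_odd hM F hk hk hst hst B (B ∘ₗ M.relabel (swapTwo S) g k) hb
        (ext y v) (ext (b c) v)
      rw [← h4]
      refine Finset.sum_congr rfl fun a _ => ?_
      congr 1
      rw [LinearMap.comp_apply]
      have h5 := F.equivariance (swapTwo S) g k (ext (b c) (ext (b' a) v)) hst
      have h6 : (fun s => ext (b c) (ext (b' a) v) (swapTwo S s)) =
          ext (b' a) (ext (b c) v) := by
        funext o
        rcases o with _ | _ | s <;> rfl
      rw [h6] at h5
      rw [h5]
    rw [h3, zero_smul]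
  have htr : LinearMap.trace ℂ F.V T = 0 := by
    have hnil : IsNilpotent T := ⟨2, by rw [pow_two, hTT]⟩
    have := LinearMap.isNilpotent_trace_of_isNilpotent hnil
    exact this.eq_zero
  rw [LinearMap.trace_eq_matrix_trace ℂ b', Matrix.trace] at htr
  rw [← htr]
  refine Finset.sum_congr rfl fun a _ => ?_
  rw [Matrix.diag_apply, LinearMap.toMatrix_apply]
  have h7 : T (b' a) = ∑ c, β (b' a) (b c) • b' c := rfl
  rw [h7, map_sum, Finset.sum_apply']
  rw [Finset.sum_eq_single a]
  · simp [hβ]
  · intro c _ hca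
    simp [hca]
  · simp

/-- Push-forwards of odd classes under the non-separating gluing map are invisible. -/
theorem invisible_loop (hM : StandardProperties M) {S : Type} [Finite S] {g k : ℕ} (hk : Odd k)
    (hst : Stable g (Option (Option S))) (B : Module.Dual ℂ (M.H g (Option (Option S)) k)) :
    Invisible M (B ∘ₗ M.loop S g k) := by
  intro F v
  obtain ⟨ι, _, b, b', hb⟩ := exists_dualBases F
  rw [LinearMap.comp_apply, F.gluing_loop S g k v hst b b' hb, map_sum]
  exact trace_zero hM F hk hst B hb v

/-- Push-forwards of products of two odd classes under the separating gluing maps are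
invisible. -/
theorem invisible_glue (hM : StandardProperties M) {S T : Type} [Finite S] [Finite T] {g₁ g₂ g i j k : ℕ} (hg : g₁ + g₂ = g)
    (hk : i + j = k) (hi : Odd i) (hj : Odd j) (h₁ : Stable g₁ (Option S))
    (h₂ : Stable g₂ (Option T)) (B₁ : Module.Dual ℂ (M.H g₁ (Option S) i))
    (B₂ : Module.Dual ℂ (M.H g₂ (Option T) j)) :
    Invisible M (prodForm B₁ B₂ ∘ₗ M.glue S T hg hk) := by
  intro F v
  obtain ⟨ι, _, b, b', hb⟩ := exists_dualBases F
  have hv : v = Sum.elim (fun s => v (Sum.inl s)) (fun t => v (Sum.inr t)) := by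
    funext s
    cases s <;> rfl
  rw [hv, LinearMap.comp_apply, F.gluing_sep S T hg hk _ _ h₁ h₂ b b' hb, map_sum]
  simp only [prodForm_tmul]
  exact odd_odd hM F hi hj h₁ h₂ B₁ B₂ hb _ _

end Pool.Agent.Lib.MP_bd1395_ag
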