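import Mathlib
import Pool.Agent.Lib.MP_bd1395_ag.Odd

open scoped TensorProduct

namespace Pool.Agent.Lib.MP_bd1395_ag

variable {M : ModuliGroups}

/-- Relabelling used for the odd invisible class. -/
def moveOut (S : Type) : Option (Option (S ⊕ Unit)) ≃ S ⊕ Option (Option Unit) where
  toFun o := match o with
    | none => Sum.inr none
    | some none => Sum.inr (some none)
    | some (some (Sum.inl s)) => Sum.inl s
    | some (some (Sum.inr u)) => Sum.inr (some (some u))
  invFun o := match o with
    | Sum.inl s => some (some (Sum.inl s))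
    | Sum.inr none => none
    | Sum.inr (some none) => some none
    | Sum.inr (some (some u)) => some (some (Sum.inr u))
  left_inv o := by rcases o with _ | _ | s | u <;> rfl
  right_inv o := by rcases o with s | _ | _ | u <;> rfl

/-- Cyclic relabelling of the first three markings. -/
def rotate : Option (Option (Option Unit)) ≃ Option (Option (Option Unit)) where
  toFun o := match o with
    | none => some (some none)
    | some none => none
    | some (some none) => some none
    | some (some (some u)) => some (some (some u))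
  invFun o := match o with
    | none => some none
    | some none => some (some none)
    | some (some none) => none
    | some (some (some u)) => some (some (some u))
  left_inv o := by rcases o with _ | _ | _ | u <;> rfl
  right_inv o := by rcases o with _ | _ | _ | u <;> rfl

lemma card_four : Nat.card (Option (Option (Option Unit))) = 4 := by
  simp [Nat.card_eq_fintype_card]

lemma stable_four : Stable 0 (Option (Option (Option Unit))) := by
  unfold Stable
  rw [card_four]
  norm_num

/-- The class of odd degree. -/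
theorem exists_odd (hM : StandardProperties M) {S : Type} [Finite S] [Nonempty S] {g k : ℕ} (hk : Odd k)
    (hst : Stable g (Option S)) (ω : M.H g (Option S) k) (hω : ω ≠ 0) :
    ∃ A : Module.Dual ℂ (M.H (g + 1) (S ⊕ Unit) (k + 2)), A ≠ 0 ∧ Invisible M A := by
  obtain ⟨deg, hdeg⟩ := hM.degree_psi _ card_four
  obtain ⟨B₀, hB₀⟩ : ∃ B₀ : Module.Dual ℂ (M.H g (Option S) k), B₀ ω ≠ 0 := by
    by_contra hcon
    push Not at hcon
    exact hω ((Module.forall_dual_apply_eq_zero_iff ℂ ω).mp hcon)
  have hst1 : Stable 1 (Option Unit) := by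
    unfold Stable
    simp [Nat.card_eq_fintype_card]
  let C₀ : Module.Dual ℂ (M.H 1 (Option Unit) 2) := deg ∘ₗ M.loop (Option Unit) 0 2
  refine ⟨prodForm B₀ C₀ ∘ₗ M.glue S Unit (rfl : g + 1 = g + 1) (rfl : k + 2 = k + 2), ?_, ?_⟩
  · -- nonzero
    obtain ⟨z, -, hz⟩ := hM.self_intersection S Unit (rfl : g + 1 = g + 1) ω
      (M.one 1 (Option Unit)) hst hst1
    intro h0
    have h1 := LinearMap.congr_fun h0 z
    rw [LinearMap.zero_apply] at h1
    have h2 : prodForm B₀ C₀ (M.glue S Unit (rfl : g + 1 = g + 1) (rfl : k + 2 = k + 2) z) =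
        -(B₀ ω * C₀ (M.psi none 1 0 (M.one 1 (Option Unit)))) := by
      have h3 : M.glue S Unit (rfl : g + 1 = g + 1) (rfl : k + 2 = k + 2) z =
          -(ω ⊗ₜ[ℂ] M.psi none 1 0 (M.one 1 (Option Unit))) := hz
      rw [h3, map_neg, prodForm_tmul]
    have h4 : C₀ (M.psi none 1 0 (M.one 1 (Option Unit))) = 1 := by
      show deg (M.loop (Option Unit) 0 2 (M.psi none (0 + 1) 0 (M.one (0 + 1) (Option Unit)))) = 1
      rw [hM.loop_compatible.2 (Option Unit) none 0 0 _ stable_four, hM.loop_compatible.1 (Option Unit) 0 stable_four]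
      exact hdeg _
    rw [LinearMap.comp_apply, h2, h4, mul_one] at h1
    exact hB₀ (neg_eq_zero.mp h1)
  · -- invisible
    intro F v
    obtain ⟨ι, _, b, b', hb⟩ := exists_dualBases F
    set v₁ : S → F.V := fun s => v (Sum.inl s) with hv₁
    set w : Unit → F.V := fun t => v (Sum.inr t) with hw
    have hv : v = Sum.elim v₁ w := by
      funext s
      cases s <;> rfl
    rw [hv, LinearMap.comp_apply, F.gluing_sep S Unit (rfl : g + 1 = g + 1)
      (rfl : k + 2 = k + 2) v₁ w hst hst1 b b' hb, map_sum]
    simp only [prodForm_tmul]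
    have h1 : ∀ a, C₀ (F.Ω 1 (Option Unit) 2 (ext (b' a) w)) =
        ∑ c, deg (F.Ω 0 (Option (Option (Option Unit))) 2
          (ext (b c) (ext (b' c) (ext (b' a) w)))) := by
      intro a
      show deg (M.loop (Option Unit) 0 2 (F.Ω (0 + 1) (Option Unit) 2 (ext (b' a) w))) = _
      rw [F.gluing_loop (Option Unit) 0 2 _ stable_four b b' hb, map_sum]
    simp only [h1, Finset.mul_sum]
    rw [Finset.sum_comm]
    -- the odd class on `Mbar_{g, S + 1 + 2}`
    have hst2 : Stable g (Option (Option (S ⊕ Unit))) := by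
      unfold Stable at hst ⊢
      rw [Finite.card_option] at hst
      rw [Finite.card_option, Finite.card_option, Nat.card_sum]
      omega
    let B : Module.Dual ℂ (M.H g (Option (Option (S ⊕ Unit))) (k + 2)) :=
      prodForm B₀ (deg ∘ₗ M.relabel rotate 0 2) ∘ₗ
        M.glue S (Option (Option Unit)) (add_zero g) (rfl : k + 2 = k + 2) ∘ₗ
          M.relabel (moveOut S) g (k + 2)
    have hodd : Odd (k + 2) := hk.add_even (by decide)
    rw [← trace_zero hM F hodd hst2 B hb (Sum.elim v₁ w)]
    refine Finset.sum_congr rfl fun c _ => ?_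
    show _ = prodForm B₀ (deg ∘ₗ M.relabel rotate 0 2)
        (M.glue S (Option (Option Unit)) (add_zero g) (rfl : k + 2 = k + 2)
          (M.relabel (moveOut S) g (k + 2) (F.Ω g (Option (Option (S ⊕ Unit))) (k + 2)
            (ext (b c) (ext (b' c) (Sum.elim v₁ w))))))
    have h2 := F.equivariance (moveOut S) g (k + 2)
      (Sum.elim v₁ (ext (b c) (ext (b' c) w))) hst2
    have h3 : (fun s => Sum.elim v₁ (ext (b c) (ext (b' c) w)) (moveOut S s)) =
        ext (b c) (ext (b' c) (Sum.elim v₁ w)) := by
      funext o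
      rcases o with _ | _ | s | u <;> rfl
    rw [h3] at h2
    rw [h2, F.gluing_sep S (Option (Option Unit)) (add_zero g) (rfl : k + 2 = k + 2) v₁
      (ext (b c) (ext (b' c) w)) hst stable_four b b' hb, map_sum]
    refine Finset.sum_congr rfl fun a _ => ?_
    rw [prodForm_tmul, LinearMap.comp_apply]
    have h4 := F.equivariance rotate 0 2 (ext (b c) (ext (b' c) (ext (b' a) w))) stable_four
    have h5 : (fun s => ext (b c) (ext (b' c) (ext (b' a) w)) (rotate s)) =
        ext (b' a) (ext (b c) (ext (b' c) w)) := by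
      funext o
      rcases o with _ | _ | _ | u <;> rfl
    rw [h5] at h4
    rw [h4]

/-- The class of even degree. -/
theorem exists_even (hM : StandardProperties M) {S : Type} [Finite S] [Nonempty S] {g k : ℕ} (hk : Odd k)
    (hst : Stable g (Option S)) (ω : M.H g (Option S) k) (hω : ω ≠ 0) :
    ∃ A : Module.Dual ℂ (M.H (g + g) (S ⊕ Option S) (k + (k + 2))),
      A ≠ 0 ∧ Invisible M A := by
  have hst2 : Stable g (Option (Option S)) := by
    unfold Stable at hst ⊢
    rw [Finite.card_option] at hst ⊢
    rw [Finite.card_option]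
    omega
  set y : M.H g (Option (Option S)) k := M.forget (Option S) g k ω with hy
  have hy0 : M.psi none g k y ≠ 0 := by
    intro h0
    obtain ⟨push, hpush⟩ := hM.dilaton (Option S) g k hst
    have h1 := hpush ω
    rw [← hy, h0, map_zero] at h1
    have h2 : ((2 * g + Nat.card (Option S) : ℕ) - 2 : ℂ) ≠ 0 := by
      unfold Stable at hst
      intro h3
      have h4 : ((2 * g + Nat.card (Option S) : ℕ) : ℂ) = 2 := sub_eq_zero.mp h3
      have h5 : 2 * g + Nat.card (Option S) = 2 := by exact_mod_cast h4
      omega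
    exact hω ((smul_eq_zero.mp h1.symm).resolve_left h2)
  obtain ⟨B₁, hB₁⟩ : ∃ B : Module.Dual ℂ (M.H g (Option S) k), B ω ≠ 0 := by
    by_contra hcon
    push Not at hcon
    exact hω ((Module.forall_dual_apply_eq_zero_iff ℂ ω).mp hcon)
  obtain ⟨B₂, hB₂⟩ : ∃ B : Module.Dual ℂ (M.H g (Option (Option S)) (k + 2)),
      B (M.psi none g k y) ≠ 0 := by
    by_contra hcon
    push Not at hcon
    exact hy0 ((Module.forall_dual_apply_eq_zero_iff ℂ _).mp hcon)
  refine ⟨prodForm B₁ B₂ ∘ₗ M.glue S (Option S) rfl rfl, ?_,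
    invisible_glue hM rfl rfl hk (hk.add_even (by decide)) hst hst2 B₁ B₂⟩
  obtain ⟨z, -, hz⟩ := hM.self_intersection S (Option S) (rfl : g + g = g + g) ω y hst hst2
  intro h0
  have h1 := LinearMap.congr_fun h0 z
  rw [LinearMap.zero_apply, LinearMap.comp_apply] at h1
  have h2 : M.glue S (Option S) (rfl : g + g = g + g) (rfl : k + (k + 2) = k + (k + 2)) z =
      -(ω ⊗ₜ[ℂ] M.psi none g k y) := hz
  rw [h2, map_neg, prodForm_tmul, neg_eq_zero] at h1
  exact (mul_ne_zero hB₁ hB₂) h1

end Pool.Agent.Lib.MP_bd1395_ag
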